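import Pool.Agent.helper92.VT.Spec

/-! Row NSM: sums of finitely many exponential sums over the same Boolean variables. -/

universe u

namespace Pool.Agent.helper92.VT

open MvPolynomial Pool.Agent.helper92.VC

theorem NSM_append {σ : Type} {k : Type u} [Field k] {l l₀ : List (MvPolynomial σ k)} (h : SLP l)
    (h₀ : SLP l₀) : SLP (l ++ l₀) := by
  have hav : ∀ (l : List (MvPolynomial σ k)) (a : MvPolynomial σ k), Avail l a → Avail (l ++ l₀) a := by
    intro l a ha
    rcases ha with ha | ha | ha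
    · exact Or.inl ha
    · exact Or.inr (Or.inl ha)
    · exact Or.inr (Or.inr (List.mem_append_left _ ha))
  induction h with
  | nil => exact h₀
  | add l a b hl ha hb ih => exact SLP.add (l ++ l₀) a b ih (hav _ _ ha) (hav _ _ hb)
  | sub l a b hl ha hb ih => exact SLP.sub (l ++ l₀) a b ih (hav _ _ ha) (hav _ _ hb)
  | mul l a b hl ha hb ih => exact SLP.mul (l ++ l₀) a b ih (hav _ _ ha) (hav _ _ hb)

theorem NSM_of {σ : Type} {k : Type u} [Field k] {f : MvPolynomial σ k} {r : ℕ}
    (h : ComputedIn f r) : CST_E ∅ {f} r := by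
  obtain ⟨l, hl, hr, hf⟩ := h
  intro l₀ hl₀ _
  refine ⟨l, NSM_append hl hl₀, hr, ?_⟩
  intro t ht
  rw [Set.mem_singleton_iff.1 ht]
  rcases hf with ha | ha | ha
  · exact Or.inl ha
  · exact Or.inr (Or.inl ha)
  · exact Or.inr (Or.inr (List.mem_append_left _ ha))

theorem NSM_to {σ : Type} {k : Type u} [Field k] {f : MvPolynomial σ k} {r : ℕ}
    (h : CST_E ∅ {f} r) : ComputedIn f r := by
  obtain ⟨l', h1, h2, h3⟩ := h [] SLP.nil (fun s hs => absurd hs (Set.notMem_empty s))
  rw [List.append_nil] at h1 h3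
  exact ⟨l', h1, h2, h3 f rfl⟩

theorem NSM : NSM_stmt.{u} := by
  intro k _ n d m L D C _ φ h
  choose Φ h1 h2 h3 using h
  refine ⟨∑ i, Φ i, ?_, ?_, ?_⟩
  · have h4 := CST_E_sum (S := (∅ : Set (MvPolynomial ((Fin n × Fin (d + 1)) ⊕ Fin m) k)))
      (Finset.univ : Finset C) Φ L (fun i _ => NSM_of (h1 i))
    rw [Finset.card_univ] at h4
    exact NSM_to h4
  · exact MvPolynomial.totalDegree_finsetSum_le (fun i _ => h2 i)
  · intro e he
    simp only [map_sum]
    rw [Finset.sum_comm]
    exact Finset.sum_congr rfl (fun i _ => h3 i e he)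

end Pool.Agent.helper92.VT
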